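import Pool.Agent.P.MP_7618c8_co.Density

/-!
The Turán density of the three-edge `r`-graph on `r + 1` vertices has order of magnitude `1 / r`.
-/

namespace Pool.Agent.Results.MP_7618c8_co.ThetaOneOverR

/-- The `r`-graph `S^r K_3^2`: vertex set `S ⊔ A` with `S = Fin 3`, `A = Fin (r - 2)`; its edges
are the sets `P ∪ A` with `P` a 2-element subset of `S`. -/
def suspK3 (r : ℕ) : Finset (Finset (Fin 3 ⊕ Fin (r - 2))) :=
  (Finset.powersetCard 2 (Finset.univ : Finset (Fin 3))).image
    (fun P => P.disjSum (Finset.univ : Finset (Fin (r - 2))))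

/-- The hypergraph with edge set `G` contains a (not necessarily induced) copy of the hypergraph
with edge set `F`: an injective vertex map sends every edge of `F` onto an edge of `G`. -/
def ContainsCopy {α β : Type} (G : Finset (Finset β)) (F : Finset (Finset α)) : Prop :=
  ∃ φ : α ↪ β, ∀ f ∈ F, f.map φ ∈ G

/-- The Turán number: the maximum number of edges of an `r`-graph on the `n` vertices `Fin n`
that contains no copy of `F`. -/
noncomputable def ex {α : Type} (r n : ℕ) (F : Finset (Finset α)) : ℕ :=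
  sSup {m : ℕ | ∃ G : Finset (Finset (Fin n)),
    (∀ e ∈ G, e.card = r) ∧ ¬ ContainsCopy G F ∧ G.card = m}

section Bridge
open Finset Pool.Agent.P.MP_7618c8_co

lemma map_pair {k n : ℕ} (φ : Fin 3 ⊕ Fin k ↪ Fin n) (i j : Fin 3) :
    (({i, j} : Finset (Fin 3)).disjSum (univ : Finset (Fin k))).map φ
      = insert (φ (Sum.inl i)) (insert (φ (Sum.inl j)) (univ.image (fun t => φ (Sum.inr t)))) := by
  ext x
  simp only [Finset.mem_map, mem_disjSum, mem_insert, mem_singleton, mem_univ, true_and,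
    mem_image]
  constructor
  · rintro ⟨y, ⟨s, rfl | rfl, rfl⟩ | ⟨t, rfl⟩, rfl⟩
    · exact Or.inl rfl
    · exact Or.inr (Or.inl rfl)
    · exact Or.inr (Or.inr ⟨t, rfl⟩)
  · rintro (rfl | rfl | ⟨t, rfl⟩)
    · exact ⟨_, Or.inl ⟨i, Or.inl rfl, rfl⟩, rfl⟩
    · exact ⟨_, Or.inl ⟨j, Or.inr rfl, rfl⟩, rfl⟩
    · exact ⟨_, Or.inr ⟨t, rfl⟩, rfl⟩

lemma free_iff {r n : ℕ} {G : Finset (Finset (Fin n))} (hG : ∀ e ∈ G, e.card = r) :
    ¬ ContainsCopy G (suspK3 r) ↔ Free G := by
  constructor
  · intro h A a b c ha hb hc hab hac hbc e1 e2 e3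
    apply h
    have hA : A.card = r - 2 := by
      have := hG _ e1
      rw [card_insert_of_notMem (by simp [hab, ha]), card_insert_of_notMem hb] at this
      omega
    let ψ : Fin (r - 2) → Fin n := fun t => ((A.equivFinOfCardEq hA).symm t : A)
    have hψA : ∀ t, ψ t ∈ A := fun t => ((A.equivFinOfCardEq hA).symm t).2
    have hψ : Function.Injective ψ :=
      Subtype.val_injective.comp (A.equivFinOfCardEq hA).symm.injective
    have himg : univ.image ψ = A := by
      ext x
      simp only [mem_image, mem_univ, true_and]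
      exact ⟨by rintro ⟨t, rfl⟩; exact hψA t,
        fun hx => ⟨A.equivFinOfCardEq hA ⟨x, hx⟩, by simp [ψ]⟩⟩
    have hv : Function.Injective ![a, b, c] := by
      intro i j hij
      fin_cases i <;> fin_cases j <;> simp_all
    have hout : ∀ i t, ![a, b, c] i ≠ ψ t := by
      intro i t hit
      have := hψA t
      rw [← hit] at this
      fin_cases i <;> simp_all
    refine ⟨⟨Sum.elim ![a, b, c] ψ, hv.sumElim hψ hout⟩, fun f hf => ?_⟩
    obtain ⟨P, hP, rfl⟩ := mem_image.1 hf
    have hP' : P = {0, 1} ∨ P = {0, 2} ∨ P = {1, 2} :=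
      (by decide : ∀ Q ∈ powersetCard 2 (univ : Finset (Fin 3)),
        Q = {0, 1} ∨ Q = {0, 2} ∨ Q = {1, 2}) P hP
    rcases hP' with rfl | rfl | rfl
    · rw [map_pair]; simpa [himg] using e1
    · rw [map_pair]; simpa [himg] using e2
    · rw [map_pair]; simpa [himg] using e3
  · rintro h ⟨φ, hφ⟩
    have key : ∀ i j : Fin 3, i ≠ j →
        insert (φ (Sum.inl i)) (insert (φ (Sum.inl j))
          (univ.image (fun t => φ (Sum.inr t)))) ∈ G := by
      intro i j hij
      rw [← map_pair]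
      exact hφ _ (mem_image.2 ⟨{i, j}, mem_powersetCard.2 ⟨subset_univ _, card_pair hij⟩, rfl⟩)
    exact h _ _ _ _ (by simp) (by simp) (by simp) (by simp) (by simp) (by simp)
      (key 0 1 (by decide)) (key 0 2 (by decide)) (key 1 2 (by decide))

lemma ex_eq (r n : ℕ) : ex r n (suspK3 r) = exF n r := by
  refine IsGreatest.csSup_eq ⟨?_, ?_⟩
  · obtain ⟨G, h1, h2, h3⟩ := exists_exF n r
    exact ⟨G, h1, (free_iff h1).2 h2, h3⟩
  · rintro m ⟨G, h1, h2, rfl⟩
    exact le_exF h1 ((free_iff h1).1 h2)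

end Bridge

/-- For every `r ≥ 3` the Turán density of `S^r K_3^2` exists and lies between `1 / (36 r)` and
`2 / (r + 1)`. -/
theorem result : ∀ r : ℕ, 3 ≤ r → ∃ p : ℝ,
    Filter.Tendsto (fun n : ℕ => (ex r n (suspK3 r) : ℝ) / (Nat.choose n r : ℝ))
      Filter.atTop (nhds p) ∧
    1 / (36 * (r : ℝ)) ≤ p ∧ p ≤ 2 / ((r : ℝ) + 1) := by
  intro r hr
  simp only [ex_eq]
  exact Pool.Agent.P.MP_7618c8_co.density_bounds (by omega)

end Pool.Agent.Results.MP_7618c8_co.ThetaOneOverR
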